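import Pool.Agent.H87.Pent.Final

/-!
# Four pentagonal-type terms with nonnegative arguments

Every natural number except `1` and `19` has the form
`w (5 w - 1) / 2 + x (5 x - 1) / 2 + y (5 y + 1) / 2 + z (5 z + 1) / 2` with natural numbers `w`, `x`, `y`, `z`;
in particular every integer `n > 51` has.

The proof. Put `m = 10 n + 1`. One needs integers `s₀, s₁ < 0 < s₂, s₃`, all congruent to `1` modulo `10`, with
`s₀² + s₁² + s₂² + s₃² = 4 m`. In terms of quaternions: an integral quaternion of norm `m` in a fixed class modulo
`5` and near a fixed direction. The component `h` along the direction of a quaternion of norm `1`, `5`, `3` or `15`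
is chosen such that the norm of the remaining ternary part is `9 R` where `R` is a sum of three squares; the norm
`1`, `5`, `3`, `15` is chosen such that this is possible (`m`, `5 m`, `m / 3` or `5 m / 3` is a square modulo `9`).
A solution of `x² + y² + z² = R` is multiplied by one of finitely many integral matrices, similitudes of factor
`3`, which move it to the wanted class modulo `5` (a path of length one in the graph of the `3`-neighbours). As
the ternary part is small, the signs are right. This is possible for `n ≥ 180000000`; the other `n` are checked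
by a computation with long binary numbers.
-/

set_option autoImplicit false

namespace Pool.Agent.Results.MP_a2b463_nt.FourPentagonalTerms

open Pool.Agent.H87.Pent

theorem cast_f (w : ℕ) : ((f w : ℕ) : ℚ) = w * (5 * w - 1) / 2 := by
  have h := two_f w
  rcases Nat.eq_zero_or_pos w with h0 | h0
  · subst h0; simp [f]
  · have h5 : ((5 * w - 1 : ℕ) : ℚ) = 5 * (w : ℚ) - 1 := by
      rw [Nat.cast_sub (by omega)]; push_cast; ring
    have h6 : (2 : ℚ) * (f w : ℚ) = w * ((5 * w - 1 : ℕ) : ℚ) := by exact_mod_cast h
    rw [h5] at h6
    linarith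

theorem cast_g (w : ℕ) : ((g w : ℕ) : ℚ) = w * (5 * w + 1) / 2 := by
  have h : 2 * g w = w * (5 * w + 1) := by
    unfold g
    apply Nat.mul_div_cancel'
    rcases Nat.even_or_odd w with h | h
    · exact (h.two_dvd).mul_right _
    · obtain ⟨k, rfl⟩ := h
      apply Dvd.dvd.mul_left
      exact ⟨5 * k + 3, by omega⟩
  have h6 : (2 : ℚ) * (g w : ℚ) = w * (5 * w + 1) := by exact_mod_cast h
  linarith

/-- A natural number `n` is of the form `w(5w-1)/2 + x(5x-1)/2 + y(5y+1)/2 + z(5z+1)/2` with natural numbers
`w, x, y, z` if and only if `n` is neither `1` nor `19`. -/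
theorem result : ∀ n : ℕ, (∃ w x y z : ℕ, (n : ℚ) =
    w * (5 * w - 1) / 2 + x * (5 * x - 1) / 2 + y * (5 * y + 1) / 2 + z * (5 * z + 1) / 2) ↔
      n ≠ 1 ∧ n ≠ 19 := by
  intro n
  rw [← rep_iff]
  constructor
  · rintro ⟨w, x, y, z, h⟩
    refine ⟨w, x, y, z, ?_⟩
    rw [← cast_f, ← cast_f, ← cast_g, ← cast_g] at h
    exact_mod_cast h
  · rintro ⟨w, x, y, z, h⟩
    refine ⟨w, x, y, z, ?_⟩
    rw [← cast_f, ← cast_f, ← cast_g, ← cast_g, h]
    push_cast
    ring

end Pool.Agent.Results.MP_a2b463_nt.FourPentagonalTerms
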